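import Pool.Agent.KS6_21.WTR.Example

/-!
# Closed images of weakly theta-refinable spaces

Q1 has a negative answer even for closed maps with countable fibres between Tychonoff spaces; Q2 has
a positive answer, and it is enough that the boundaries of the fibres are compact, or (for `T₁`
range) countably compact; this is so, for example, if the domain is normal and the points of the
range are q-points.
-/

set_option autoImplicit false

open Set Filter Topology

namespace Pool.Agent.Results.MP_55e6a3_gt.BoundariesOfFibres

universe u v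

/-- Weakly theta-refinable: every open cover has an open refinement split into countably many
families such that each point lies in a positive finite number of members of one family. -/
def WeaklyThetaRefinable (X : Type u) [TopologicalSpace X] : Prop :=
  ∀ 𝒰 : Set (Set X), (∀ U ∈ 𝒰, IsOpen U) → ⋃₀ 𝒰 = univ →
    ∃ 𝒱 : ℕ → Set (Set X), (∀ n, ∀ V ∈ 𝒱 n, IsOpen V ∧ ∃ U ∈ 𝒰, V ⊆ U) ∧
      ∀ x : X, ∃ n, {V | V ∈ 𝒱 n ∧ x ∈ V}.Nonempty ∧ {V | V ∈ 𝒱 n ∧ x ∈ V}.Finite

/-- `y` is a q-point: it has neighbourhoods `N 0, N 1, …` such that every sequence of points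
`u n ∈ N n` has a cluster point. Points with a countable neighbourhood base, and points with a
countably compact neighbourhood, are q-points. -/
def IsQPoint {Y : Type v} [TopologicalSpace Y] (y : Y) : Prop :=
  ∃ N : ℕ → Set Y, (∀ n, N n ∈ 𝓝 y) ∧
    ∀ u : ℕ → Y, (∀ n, u n ∈ N n) → ∃ p, MapClusterPt p atTop u

/-- (1) A negative answer to Q1 for Tychonoff spaces and closed maps with countable fibres.
(2) The positive answer to Q2. (3) More generally, it is enough that `f⁻¹(y)` minus its interior is
compact for every `y`. (4) If the range is a `T₁` space, it is enough that the boundaries of the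
fibres are countably compact. (5) If the domain is normal and `T₁` and all points of the range are
q-points, no condition on the fibres is needed. (6) Closed countably compact subsets of weakly
theta-refinable spaces are compact. -/
theorem result :
    (∃ (X Y : Type) (_ : TopologicalSpace X) (_ : TopologicalSpace Y) (f : X → Y),
      T35Space X ∧ T35Space Y ∧
      (∃ D : ℕ → Set X, (⋃ n, D n) = univ ∧ ∀ n, DiscreteTopology (D n)) ∧
      WeaklyThetaRefinable X ∧ (∀ S : Set X, WeaklyThetaRefinable S) ∧
      Continuous f ∧ Function.Surjective f ∧ IsClosedMap f ∧ (∀ y, (f ⁻¹' {y}).Countable) ∧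
      ¬ WeaklyThetaRefinable Y) ∧
    (∀ (X : Type u) (Y : Type v) [TopologicalSpace X] [TopologicalSpace Y] (f : X → Y),
      WeaklyThetaRefinable X → Continuous f → Function.Surjective f → IsClosedMap f →
      (∀ y, IsCompact (f ⁻¹' {y})) → WeaklyThetaRefinable Y) ∧
    (∀ (X : Type u) (Y : Type v) [TopologicalSpace X] [TopologicalSpace Y] (f : X → Y),
      WeaklyThetaRefinable X → Continuous f → Function.Surjective f → IsClosedMap f →
      (∀ y, IsCompact (f ⁻¹' {y} \ interior (f ⁻¹' {y}))) → WeaklyThetaRefinable Y) ∧
    (∀ (X : Type u) (Y : Type v) [TopologicalSpace X] [TopologicalSpace Y] [T1Space Y] (f : X → Y),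
      WeaklyThetaRefinable X → Continuous f → Function.Surjective f → IsClosedMap f →
      (∀ y, IsCountablyCompact (frontier (f ⁻¹' {y}))) → WeaklyThetaRefinable Y) ∧
    (∀ (X : Type u) (Y : Type v) [TopologicalSpace X] [TopologicalSpace Y] [NormalSpace X]
      [T1Space X] (f : X → Y),
      WeaklyThetaRefinable X → Continuous f → Function.Surjective f → IsClosedMap f →
      (∀ y : Y, IsQPoint y) → WeaklyThetaRefinable Y) ∧
    (∀ (X : Type u) [TopologicalSpace X] (K : Set X),
      WeaklyThetaRefinable X → IsClosed K → IsCountablyCompact K → IsCompact K) := by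
  refine ⟨?_, fun X Y _ _ f hX hf hs hcl hK => ?_, fun X Y _ _ f hX hf hs hcl hK => ?_,
    fun X Y _ _ _ f hX hf hs hcl hK => ?_, fun X Y _ _ _ _ f hX hf hs hcl hq => ?_,
    fun X _ K hX hK hc => KS6_21.WTR.compact_of_cc hX hK hc⟩
  · obtain ⟨X, Y, tX, tY, f, h1, h2, h3, h4, h5, h6, h7, h8⟩ := KS6_21.WTR.example_closed
    exact ⟨X, Y, tX, tY, f, h1, h2, h3, h3.wtr, fun S => (h3.sub S).wtr, h4, h5, h6, h7, h8⟩
  · exact KS6_21.WTR.of_inner_compact f hX hf hs hcl fun y => (hK y).diff isOpen_interior
  · exact KS6_21.WTR.of_inner_compact f hX hf hs hcl hK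
  · exact KS6_21.WTR.of_frontier_cc f hX hf hs hcl hK
  · exact KS6_21.WTR.of_normal_q f hX hf hs hcl hq

end Pool.Agent.Results.MP_55e6a3_gt.BoundariesOfFibres
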